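import Mathlib
import Pool.Agent.N889.WU.Stm

/-!
Project WU (helper889), part DEG: monomials of degree at most `n` span an extension of degree at
most `n + 1`.
-/

set_option autoImplicit false

open Polynomial IntermediateField

namespace Pool.Agent.N80.WU.DEG

open Pool.Agent.N889.WU

universe u

theorem t_DEG : S_DEG.{u} := by
  intro F L _ _ _ _ _ n hn z w y hzw htr
  obtain ⟨W, hW⟩ : ∃ W : ℕ → Submodule F L, W = fun j =>
      Submodule.span F {x | ∃ a b : ℕ, a + b ≤ j ∧ x = z ^ a * w ^ b} := ⟨_, rfl⟩
  have hmem : ∀ j a b : ℕ, a + b ≤ j → z ^ a * w ^ b ∈ W j := by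
    intro j a b hab
    rw [hW]
    exact Submodule.subset_span ⟨a, b, hab, rfl⟩
  have hmono : ∀ j, W j ≤ W (j + 1) := by
    intro j
    rw [hW]
    apply Submodule.span_mono
    rintro x ⟨a, b, hab, rfl⟩
    exact ⟨a, b, by omega, rfl⟩
  have hzstep : ∀ j, ∀ v ∈ W j, z * v ∈ W (j + 1) := by
    intro j v hv
    rw [hW] at hv
    induction hv using Submodule.span_induction with
    | mem x hx =>
      obtain ⟨a, b, hab, rfl⟩ := hx
      have := hmem (j + 1) (a + 1) b (by omega)
      rwa [pow_succ', mul_assoc] at this
    | zero => rw [mul_zero]; exact Submodule.zero_mem _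
    | add x x' _ _ h1 h2 => rw [mul_add]; exact Submodule.add_mem _ h1 h2
    | smul c x _ h => rw [mul_smul_comm]; exact Submodule.smul_mem _ _ h
  have hwstep : ∀ j, ∀ v ∈ W j, w * v ∈ W (j + 1) := by
    intro j v hv
    rw [hW] at hv
    induction hv using Submodule.span_induction with
    | mem x hx =>
      obtain ⟨a, b, hab, rfl⟩ := hx
      have := hmem (j + 1) a (b + 1) (by omega)
      rwa [pow_succ', mul_left_comm] at this
    | zero => rw [mul_zero]; exact Submodule.zero_mem _
    | add x x' _ _ h1 h2 => rw [mul_add]; exact Submodule.add_mem _ h1 h2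
    | smul c x _ h => rw [mul_smul_comm]; exact Submodule.smul_mem _ _ h
  have hone : ∀ j, (1 : L) ∈ W j := by
    intro j
    have := hmem j 0 0 (by omega)
    rwa [pow_zero, pow_zero, one_mul] at this
  have hstab : ∀ j, W j = W (j + 1) → W j = ⊤ := by
    intro j hj
    have hz : ∀ v ∈ W j, z * v ∈ W j := fun v hv => by
      have := hzstep j v hv
      rwa [← hj] at this
    have hw : ∀ v ∈ W j, w * v ∈ W j := fun v hv => by
      have := hwstep j v hv
      rwa [← hj] at this
    have hall : ∀ x ∈ Algebra.adjoin F ({z, w} : Set L), ∀ v ∈ W j, x * v ∈ W j := by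
      intro x hx
      induction hx using Algebra.adjoin_induction with
      | mem x hx =>
        rcases hx with rfl | hx
        · exact hz
        · rw [Set.mem_singleton_iff] at hx
          subst hx
          exact hw
      | algebraMap r =>
        intro v hv
        rw [← Algebra.smul_def]
        exact Submodule.smul_mem _ _ hv
      | add x x' _ _ h1 h2 =>
        intro v hv
        rw [add_mul]
        exact Submodule.add_mem _ (h1 v hv) (h2 v hv)
      | mul x x' _ _ h1 h2 =>
        intro v hv
        rw [mul_assoc]
        exact h1 _ (h2 v hv)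
    have htop : Algebra.adjoin F ({z, w} : Set L) = ⊤ := by
      rw [← IntermediateField.adjoin_toSubalgebra_of_isAlgebraic
        (fun x _ => Algebra.IsAlgebraic.isAlgebraic x), hzw]
      rfl
    rw [eq_top_iff]
    intro x _
    have := hall x (by rw [htop]; trivial) 1 (hone j)
    rwa [mul_one] at this
  have hdim : ∀ j, j + 1 ≤ Module.finrank F (W j) ∨ W j = ⊤ := by
    intro j
    induction j with
    | zero =>
      left
      rw [zero_add, Nat.one_le_iff_ne_zero]
      intro h0
      rw [Submodule.finrank_eq_zero] at h0
      have := hone 0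
      rw [h0, Submodule.mem_bot] at this
      exact one_ne_zero this
    | succ j ih =>
      rcases ih with ih | ih
      · by_cases hj : W j = W (j + 1)
        · right
          rw [← hj]
          exact hstab j hj
        · left
          have := Submodule.finrank_lt_finrank_of_lt (lt_of_le_of_ne (hmono j) hj)
          omega
      · right
        rw [eq_top_iff, ← ih]
        exact hmono j
  have hWn : W n = ⊤ := by
    rcases hdim n with h | h
    · apply Submodule.eq_top_of_finrank_eq
      exact le_antisymm (Submodule.finrank_le _) (hn.trans h)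
    · exact h
  have hall : ∀ x : L, Algebra.trace F L (x * y) = 0 := by
    intro x
    have hx : x ∈ W n := by rw [hWn]; trivial
    rw [hW] at hx
    induction hx using Submodule.span_induction with
    | mem x hx =>
      obtain ⟨a, b, hab, rfl⟩ := hx
      exact htr a b hab
    | zero => rw [zero_mul, map_zero]
    | add x x' _ _ h1 h2 => rw [add_mul, map_add, h1, h2, add_zero]
    | smul c x _ h => rw [smul_mul_assoc, map_smul, h, smul_zero]
  apply (traceForm_nondegenerate F L).2
  intro x
  rw [Algebra.traceForm_apply]
  exact hall x

end Pool.Agent.N80.WU.DEG
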